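import Pool.Agent.Lib.MP_0170ef_an_helper55.Member

/-!
The frozen statement `S03669` from `LinNi.MainFact`.
-/

set_option autoImplicit false

open Set Filter Topology

namespace LinNi.H55

/-- one component of the solution set -/
lemma component {S : Set (ℝ × ℝ)} {p q : ℝ} (hp : 0 ≤ p) (hq : q < 2)
    (hS : ∀ l a : ℝ, (l, a) ∈ S ↔ Sol l a)
    (hc : ∀ a ∈ Ioo p q, Crosses a)
    (hp' : ∀ y ∈ S, y.2 ≠ p) (hq' : ∀ y ∈ S, y.2 ≠ q) {a₀ : ℝ} (ha₀ : a₀ ∈ Ioo p q) :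
    (T a₀ ^ 2, a₀) ∈ S ∧
      connectedComponentIn S (T a₀ ^ 2, a₀) = (fun a => (T a ^ 2, a)) '' Ioo p q := by
  have hmem : ∀ a ∈ Ioo p q, (T a ^ 2, a) ∈ S := fun a ha =>
    (hS _ _).2 (sol_of_crosses (hp.trans_lt ha.1) (ha.2.trans hq) (hc a ha))
  refine ⟨hmem a₀ ha₀, ?_⟩
  apply Subset.antisymm
  · intro y hy
    have hyS : y ∈ S := connectedComponentIn_subset _ _ hy
    -- the projection is connected
    have hconn : IsPreconnected (Prod.snd '' connectedComponentIn S (T a₀ ^ 2, a₀)) :=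
      isPreconnected_connectedComponentIn.image _ continuous_snd.continuousOn
    have hord := hconn.ordConnected
    have h0 : a₀ ∈ Prod.snd '' connectedComponentIn S (T a₀ ^ 2, a₀) :=
      ⟨_, mem_connectedComponentIn (hmem a₀ ha₀), rfl⟩
    have hyI : y.2 ∈ Prod.snd '' connectedComponentIn S (T a₀ ^ 2, a₀) := ⟨y, hy, rfl⟩
    have hyp : p < y.2 := by
      by_contra hcon
      push Not at hcon
      have : p ∈ Prod.snd '' connectedComponentIn S (T a₀ ^ 2, a₀) :=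
        hord.out hyI h0 ⟨hcon, ha₀.1.le⟩
      obtain ⟨w, hw, hwp⟩ := this
      exact hp' w (connectedComponentIn_subset _ _ hw) hwp
    have hyq : y.2 < q := by
      by_contra hcon
      push Not at hcon
      have : q ∈ Prod.snd '' connectedComponentIn S (T a₀ ^ 2, a₀) :=
        hord.out h0 hyI ⟨ha₀.2.le, hcon⟩
      obtain ⟨w, hw, hwq⟩ := this
      exact hq' w (connectedComponentIn_subset _ _ hw) hwq
    have hsol : Sol y.1 y.2 := (hS _ _).1 hyS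
    have := (crosses_of_sol (hyq.trans hq) hsol).2
    exact ⟨y.2, ⟨hyp, hyq⟩, Prod.ext this.symm rfl⟩
  · have hcont : ContinuousOn (fun a => (T a ^ 2, a)) (Ioo p q) := by
      have h1 : ContinuousOn T (Ioo p q) :=
        continuousOn_T isOpen_Ioo fun a ha => ⟨hp.trans_lt ha.1, hc a ha⟩
      exact (h1.pow 2).prodMk continuousOn_id
    have hpre : IsPreconnected ((fun a => (T a ^ 2, a)) '' Ioo p q) :=
      isPreconnected_Ioo.image _ hcont
    exact hpre.subset_connectedComponentIn ⟨a₀, ha₀, rfl⟩ (by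
      rintro _ ⟨a, ha, rfl⟩
      exact hmem a ha)

theorem turn_of_component {C : Set (ℝ × ℝ)} {p q : ℝ} (hp : 0 ≤ p)
    (hC : C = (fun a => (T a ^ 2, a)) '' Ioo p q)
    (hcq : ∀ a ∈ Ioo p q, Crosses a ∧ LocQ a) (hv : Vee p q) :
    ∃ t ∈ C,
      (∀ y ∈ C, ∀ z ∈ C, y.2 < z.2 → z.2 ≤ t.2 → z.1 < y.1) ∧
      (∀ y ∈ C, ∀ z ∈ C, y.2 < z.2 → t.2 ≤ y.2 → y.1 < z.1) := by
  have hcont : ContinuousOn T (Ioo p q) :=
    continuousOn_T isOpen_Ioo fun a ha => ⟨hp.trans_lt ha.1, (hcq a ha).1⟩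
  obtain ⟨t, ht, h1, h2⟩ := one_turn hcont (fun a ha => (hcq a ha).2) hv
  subst hC
  refine ⟨_, ⟨t, ht, rfl⟩, ?_, ?_⟩
  · rintro _ ⟨y, hy, rfl⟩ _ ⟨z, hz, rfl⟩ hyz hzt
    have := h1 y hy z hz hyz hzt
    exact pow_lt_pow_left₀ this (T_pos (hcq z hz).1).le (by norm_num)
  · rintro _ ⟨y, hy, rfl⟩ _ ⟨z, hz, rfl⟩ hyz hzt
    have := h2 y hy z hz hyz hzt
    exact pow_lt_pow_left₀ this (T_pos (hcq y hy).1).le (by norm_num)

theorem frozen_of_main (h : LinNi.MainFact) :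
    ∀ S : Set (ℝ × ℝ),
      (∀ l a : ℝ, (l, a) ∈ S ↔
        (0 < l ∧ ∃ u : ℝ → ℝ, ∃ ε : ℝ, 0 < ε ∧
          ContDiffOn ℝ 2 u (Set.Ioo (-ε) (1 + ε)) ∧
          u 0 = a ∧ deriv u 0 = 0 ∧ u 1 = 0 ∧
          (∀ r ∈ Set.Ico (0:ℝ) 1, 0 < u r) ∧
          ∀ r ∈ Set.Ioc (0:ℝ) 1,
            deriv (deriv u) r + 2 / r * deriv u r + l * (u r ^ 4 + u r ^ 7) = 0)) →
      ∃ x1 ∈ S, ∃ x2 ∈ S,
        connectedComponentIn S x1 ≠ connectedComponentIn S x2 ∧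
        (∀ y ∈ S, y ∉ connectedComponentIn S x1 → y ∉ connectedComponentIn S x2 →
          ∀ z ∈ connectedComponentIn S x1 ∪ connectedComponentIn S x2, z.2 < y.2) ∧
        ∀ x ∈ ({x1, x2} : Set (ℝ × ℝ)),
          ∃ t ∈ connectedComponentIn S x,
            (∀ y ∈ connectedComponentIn S x, ∀ z ∈ connectedComponentIn S x,
              y.2 < z.2 → z.2 ≤ t.2 → z.1 < y.1) ∧
            (∀ y ∈ connectedComponentIn S x, ∀ z ∈ connectedComponentIn S x,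
              y.2 < z.2 → t.2 ≤ y.2 → y.1 < z.1) := by
  intro S hS0
  have hS : ∀ l a : ℝ, (l, a) ∈ S ↔ Sol l a := hS0
  obtain ⟨α₁, α₂, h1, h12, h22, hn1, hn2, hall, hv1, hv2⟩ := h
  have hpos : ∀ y ∈ S, 0 < y.2 := fun y hy => ((hS _ _).1 hy).pos
  have hne0 : ∀ y ∈ S, y.2 ≠ 0 := fun y hy => (hpos y hy).ne'
  have hne1 : ∀ y ∈ S, y.2 ≠ α₁ := by
    intro y hy hy1
    have h2 : Sol y.1 y.2 := (hS _ _).1 hy
    rw [hy1] at h2
    exact hn1 (crosses_of_sol (h12.trans h22) h2).1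
  have hne2 : ∀ y ∈ S, y.2 ≠ α₂ := by
    intro y hy hy1
    have h2 : Sol y.1 y.2 := (hS _ _).1 hy
    rw [hy1] at h2
    exact hn2 (crosses_of_sol h22 h2).1
  have hcq1 : ∀ a ∈ Ioo 0 α₁, Crosses a ∧ LocQ a := fun a ha =>
    hall a ha.1 (ha.2.trans h12) ha.2.ne
  have hcq2 : ∀ a ∈ Ioo α₁ α₂, Crosses a ∧ LocQ a := fun a ha =>
    hall a (h1.trans ha.1) ha.2 ha.1.ne'
  have ha1 : α₁ / 2 ∈ Ioo 0 α₁ := ⟨by linarith, by linarith⟩
  have ha2 : (α₁ + α₂) / 2 ∈ Ioo α₁ α₂ := ⟨by linarith, by linarith⟩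
  obtain ⟨m1, c1⟩ := component le_rfl (h12.trans h22) hS (fun a ha => (hcq1 a ha).1) hne0 hne1 ha1
  obtain ⟨m2, c2⟩ := component h1.le h22 hS (fun a ha => (hcq2 a ha).1) hne1 hne2 ha2
  refine ⟨_, m1, _, m2, ?_, ?_, ?_⟩
  · intro heq
    have hx : (T (α₁ / 2) ^ 2, α₁ / 2) ∈ connectedComponentIn S (T (α₁ / 2) ^ 2, α₁ / 2) :=
      mem_connectedComponentIn m1
    rw [heq, c2] at hx
    obtain ⟨a, ha, hae⟩ := hx
    have : a = α₁ / 2 := congrArg Prod.snd hae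
    rw [this] at ha
    linarith [ha.1, ha1.2]
  · intro y hy hy1 hy2 z hz
    have hy2' : α₂ < y.2 := by
      by_contra hcon
      push Not at hcon
      have hlt : y.2 < α₂ := lt_of_le_of_ne hcon (hne2 y hy)
      have hys : y.1 = T y.2 ^ 2 := (crosses_of_sol (hlt.trans h22) ((hS _ _).1 hy)).2
      rcases lt_or_gt_of_ne (hne1 y hy) with h3 | h3
      · apply hy1
        rw [c1]
        exact ⟨y.2, ⟨hpos y hy, h3⟩, Prod.ext hys.symm rfl⟩
      · apply hy2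
        rw [c2]
        exact ⟨y.2, ⟨h3, hlt⟩, Prod.ext hys.symm rfl⟩
    rw [c1, c2] at hz
    rcases hz with ⟨a, ha, rfl⟩ | ⟨a, ha, rfl⟩
    · exact ha.2.trans (h12.trans hy2')
    · exact ha.2.trans hy2'
  · intro x hx
    rcases hx with rfl | hx
    · exact turn_of_component le_rfl c1 hcq1 hv1
    · rw [mem_singleton_iff] at hx
      subst hx
      exact turn_of_component h1.le c2 hcq2 hv2

end LinNi.H55
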