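import Pool.Agent.Lib.MP_0170ef_an_helper55.Smooth

/-!
The solution set of the boundary value problem in terms of the first zero `T`.
-/

set_option autoImplicit false

open Set Filter Topology

namespace LinNi.H55

/-- the condition defining the solution set -/
def Sol (l a : ℝ) : Prop :=
  0 < l ∧ ∃ u : ℝ → ℝ, ∃ ε : ℝ, 0 < ε ∧
    ContDiffOn ℝ 2 u (Set.Ioo (-ε) (1 + ε)) ∧
    u 0 = a ∧ deriv u 0 = 0 ∧ u 1 = 0 ∧
    (∀ r ∈ Set.Ico (0:ℝ) 1, 0 < u r) ∧
    ∀ r ∈ Set.Ioc (0:ℝ) 1,
      deriv (deriv u) r + 2 / r * deriv u r + l * (u r ^ 4 + u r ^ 7) = 0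

lemma Sol.pos {l a : ℝ} (h : Sol l a) : 0 < a := by
  obtain ⟨_, u, ε, _, _, h0, _, _, hpos, _⟩ := h
  rw [← h0]
  exact hpos 0 ⟨le_rfl, by norm_num⟩

lemma V_mem {a t : ℝ} (ha : 0 < a) (ha2 : a < 2) (h : Crosses a) (ht0 : 0 ≤ t) (ht : t ≤ T a) :
    V 1 a t ∈ Icc (-1/2 : ℝ) 2 := by
  constructor
  · rcases eq_or_lt_of_le ht with h1 | h1
    · rw [h1, V_T h]; norm_num
    · have := V_pos_of_lt ha h ht0 h1
      linarith
  · have := V_le one_mem ha ht0
    linarith

/-- every crossing initial value gives a solution -/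
lemma sol_of_crosses {a : ℝ} (ha : 0 < a) (ha2 : a < 2) (h : Crosses a) : Sol (T a ^ 2) a := by
  have hT := T_pos h
  refine ⟨by positivity, fun r => V 1 a (T a * r), 1, one_pos, ?_, ?_, ?_, ?_, ?_, ?_⟩
  · apply ContDiff.contDiffOn
    exact (contDiff_V one_mem a).comp (contDiff_const.mul contDiff_id)
  · simp [V_zero one_mem a]
  · have hd : HasDerivAt (fun r => V 1 a (T a * r)) (V1 1 a (T a * 0) * (T a * 1)) 0 :=
      (hasDerivAt_V one_mem a (T a * 0)).comp 0 ((hasDerivAt_id' 0).const_mul (T a))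
    rw [hd.deriv]
    simp [V1]
  · simp [V_T h]
  · intro r hr
    exact V_pos_of_lt ha h (mul_nonneg hT.le hr.1) (by nlinarith [hr.2])
  · intro r hr
    have e1 : deriv (fun r => V 1 a (T a * r)) = fun r => T a * V1 1 a (T a * r) := by
      funext s
      have hd : HasDerivAt (fun r => V 1 a (T a * r)) (V1 1 a (T a * s) * (T a * 1)) s :=
        (hasDerivAt_V one_mem a (T a * s)).comp s ((hasDerivAt_id' s).const_mul (T a))
      rw [hd.deriv]
      ring
    have e2 : deriv (fun r => T a * V1 1 a (T a * r)) r = T a ^ 2 * V2 1 a (T a * r) := by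
      have hd : HasDerivAt (fun r => V1 1 a (T a * r)) (V2 1 a (T a * r) * (T a * 1)) r :=
        (hasDerivAt_V1 one_mem a (T a * r)).comp r ((hasDerivAt_id' r).const_mul (T a))
      rw [(hd.const_mul (T a)).deriv]
      ring
    rw [e1, e2]
    have hr0 : 0 < r := hr.1
    have ht : 0 < T a * r := mul_pos hT hr0
    have hle : T a * r ≤ T a := by nlinarith [hr.2]
    have hm := V_mem ha ha2 h ht.le hle
    simp only [V1, V2, ht.ne', if_false]
    rw [F_of_mem hm]
    unfold f
    field_simp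
    ring

/-- a solution of the boundary value problem comes from `V 1 a` -/
lemma crosses_of_sol {l a : ℝ} (ha2 : a < 2) (h : Sol l a) : Crosses a ∧ l = T a ^ 2 := by
  have ha := h.pos
  obtain ⟨hl, u, ε, hε, hC, h0, hd0, h1, hpos, hode⟩ := h
  have hopen : IsOpen (Ioo (-ε) (1 + ε)) := isOpen_Ioo
  have hsub : Icc (0:ℝ) 1 ⊆ Ioo (-ε) (1 + ε) := fun x hx => ⟨by linarith [hx.1], by linarith [hx.2]⟩
  -- derivatives
  have hC1 : ContDiffOn ℝ 1 (deriv u) (Ioo (-ε) (1 + ε)) := by
    have : (2 : WithTop ℕ∞) = 1 + 1 := by norm_num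
    rw [this, contDiffOn_succ_iff_deriv_of_isOpen hopen] at hC
    exact hC.2.2
  have hd1 : ∀ r ∈ Ioo (-ε) (1 + ε), HasDerivAt u (deriv u r) r := by
    intro r hr
    have : DifferentiableAt ℝ u r :=
      (hC.differentiableOn (by norm_num)).differentiableAt (hopen.mem_nhds hr)
    exact this.hasDerivAt
  have hd2 : ∀ r ∈ Ioo (-ε) (1 + ε), HasDerivAt (deriv u) (deriv (deriv u) r) r := by
    intro r hr
    have : DifferentiableAt ℝ (deriv u) r :=
      (hC1.differentiableOn (by norm_num)).differentiableAt (hopen.mem_nhds hr)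
    exact this.hasDerivAt
  -- r^2 u' has derivative -r^2 l f(u)
  have hm : ∀ r ∈ Ioc (0:ℝ) 1, HasDerivAt (fun r => r ^ 2 * deriv u r)
      (-(r ^ 2 * (l * (u r ^ 4 + u r ^ 7)))) r := by
    intro r hr
    have hr' := hsub (Ioc_subset_Icc_self hr)
    have e := (hasDerivAt_pow 2 r).fun_mul (hd2 r hr')
    refine e.congr_deriv ?_
    have h3 := hode r hr
    have hr0 : r ≠ 0 := hr.1.ne'
    have h4 : deriv (deriv u) r = -(2 / r * deriv u r) - l * (u r ^ 4 + u r ^ 7) := by linarith
    rw [h4]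
    field_simp
    ring
  have hu_nonneg : ∀ r ∈ Icc (0:ℝ) 1, 0 ≤ u r := by
    intro r hr
    rcases eq_or_lt_of_le hr.2 with h | h
    · rw [h, h1]
    · exact (hpos r ⟨hr.1, h⟩).le
  have hcont_m : ContinuousOn (fun r => r ^ 2 * deriv u r) (Icc 0 1) := by
    have : ContinuousOn (deriv u) (Icc 0 1) := hC1.continuousOn.mono hsub
    fun_prop
  have hanti : AntitoneOn (fun r => r ^ 2 * deriv u r) (Icc 0 1) := by
    apply antitoneOn_of_deriv_nonpos (convex_Icc _ _) hcont_m
    · intro r hr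
      rw [interior_Icc] at hr
      exact (hm r ⟨hr.1, hr.2.le⟩).differentiableAt.differentiableWithinAt
    · intro r hr
      rw [interior_Icc] at hr
      rw [(hm r ⟨hr.1, hr.2.le⟩).deriv]
      have h2 := hu_nonneg r ⟨hr.1.le, hr.2.le⟩
      have : 0 ≤ r ^ 2 * (l * (u r ^ 4 + u r ^ 7)) := by positivity
      linarith
  have hdu : ∀ r ∈ Ioc (0:ℝ) 1, deriv u r ≤ 0 := by
    intro r hr
    have h2 := hanti (left_mem_Icc.2 zero_le_one) (Ioc_subset_Icc_self hr) hr.1.le
    simp only [ne_eq, OfNat.ofNat_ne_zero, not_false_eq_true, zero_pow, zero_mul] at h2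
    have h3 : 0 < r ^ 2 := pow_pos hr.1 2
    by_contra hcon
    push Not at hcon
    nlinarith [mul_pos h3 hcon]
  have hu_anti : AntitoneOn u (Icc 0 1) := by
    apply antitoneOn_of_deriv_nonpos (convex_Icc _ _)
    · exact hC.continuousOn.mono hsub
    · intro r hr
      rw [interior_Icc] at hr
      exact (hd1 r (hsub ⟨hr.1.le, hr.2.le⟩)).differentiableAt.differentiableWithinAt
    · intro r hr
      rw [interior_Icc] at hr
      exact hdu r ⟨hr.1, hr.2.le⟩
  have hu_mem : ∀ r ∈ Icc (0:ℝ) 1, u r ∈ Icc (-1/2 : ℝ) 2 := by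
    intro r hr
    have h2 := hu_anti (left_mem_Icc.2 zero_le_one) hr hr.1
    rw [h0] at h2
    exact ⟨by linarith [hu_nonneg r hr], by linarith⟩
  -- rescale
  set s := Real.sqrt l with hs
  have hs0 : 0 < s := Real.sqrt_pos.2 hl
  have hs2 : s ^ 2 = l := Real.sq_sqrt hl.le
  have hmemI : ∀ t ∈ Ioc 0 s, t / s ∈ Ioc (0:ℝ) 1 := fun t ht =>
    ⟨div_pos ht.1 hs0, (div_le_one hs0).2 ht.2⟩
  have hrad : RadOn 1 a s (fun t => u (t / s)) (fun t => t ^ 2 * (deriv u (t / s) / s)) := by
    refine ⟨?_, ?_, ?_⟩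
    · intro t ht
      have htI := hmemI t ht
      have htI' := hsub (Ioc_subset_Icc_self htI)
      have ht0 : t ≠ 0 := ht.1.ne'
      have hdiv : HasDerivAt (fun t => t / s) (1 / s) t := (hasDerivAt_id' t).div_const s
      constructor
      · have e : HasDerivAt (fun t => u (t / s)) (deriv u (t / s) * (1 / s)) t :=
          (hd1 (t / s) htI').comp t hdiv
        refine e.congr_deriv ?_
        field_simp
      · have e : HasDerivAt (fun t => s * ((t / s) ^ 2 * deriv u (t / s)))
            (s * (-((t / s) ^ 2 * (l * (u (t / s) ^ 4 + u (t / s) ^ 7))) * (1 / s))) t := by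
          have e2 := (hm (t / s) htI).comp t hdiv
          exact e2.const_mul s
        have e3 : (fun t => t ^ 2 * (deriv u (t / s) / s)) =
            fun t => s * ((t / s) ^ 2 * deriv u (t / s)) := by
          funext x
          field_simp
        rw [e3]
        refine e.congr_deriv ?_
        rw [F_of_mem (hu_mem _ (Ioc_subset_Icc_self htI))]
        unfold f
        rw [← hs2]
        field_simp
    · have hc : ContinuousAt u 0 := (hd1 0 (hsub (left_mem_Icc.2 zero_le_one))).continuousAt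
      have hdiv : ContinuousAt (fun t => t / s) 0 := by fun_prop
      have h2 : ContinuousAt (fun t => u (t / s)) 0 := by
        apply ContinuousAt.comp (g := u) _ hdiv
        simpa using hc
      have h3 : Tendsto (fun t => u (t / s)) (𝓝 0) (𝓝 (u (0 / s))) := h2
      rw [zero_div, h0] at h3
      exact h3.mono_left nhdsWithin_le_nhds
    · have hc : ContinuousAt (deriv u) 0 := (hd2 0 (hsub (left_mem_Icc.2 zero_le_one))).continuousAt
      have hdiv : ContinuousAt (fun t => t / s) 0 := by fun_prop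
      have h2 : ContinuousAt (fun t => deriv u (t / s)) 0 := by
        apply ContinuousAt.comp (g := deriv u) _ hdiv
        simpa using hc
      have h3 : ContinuousAt (fun t => t ^ 2 * (deriv u (t / s) / s)) 0 := by
        have h4 : ContinuousAt (fun t : ℝ => t ^ 2) 0 := by fun_prop
        exact h4.mul (h2.div_const s)
      have h5 : Tendsto (fun t => t ^ 2 * (deriv u (t / s) / s)) (𝓝 0)
        (𝓝 (0 ^ 2 * (deriv u (0 / s) / s))) := h3
      have e : (0:ℝ) ^ 2 * (deriv u (0 / s) / s) = 0 := by ring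
      rw [e] at h5
      exact h5.mono_left nhdsWithin_le_nhds
  have hVs := (hrad.unique one_mem (t := s) ⟨hs0, le_rfl⟩).1
  simp only [div_self hs0.ne', h1] at hVs
  have hTs : T a = s := T_unique ha hs0 hVs.symm
  exact ⟨⟨s, hs0, hVs.symm⟩, by rw [hTs, hs2]⟩

end LinNi.H55
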