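import Pool.Agent.Lib.MP_0170ef_an.Target

/-!
Pure real analysis: a continuous function on `(p, q)`, locally strictly quasiconvex at every
point and going down and then up, has exactly one turn. Continuity of `T`.
-/

set_option autoImplicit false

open Set Filter Topology

namespace LinNi.H55

/-- strict quasiconvexity from the local one -/
lemma quasi {f : ℝ → ℝ} {p q : ℝ} (hf : ContinuousOn f (Ioo p q))
    (hl : ∀ a ∈ Ioo p q, ∃ δ > 0, ∀ x ∈ Ioo (a - δ) a, ∀ z ∈ Ioo a (a + δ), f a < max (f x) (f z))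
    {x y z : ℝ} (hx : p < x) (hxy : x < y) (hyz : y < z) (hz : z < q) :
    f y < max (f x) (f z) := by
  by_contra hcon
  push Not at hcon
  have hsub : Icc x z ⊆ Ioo p q := fun w hw => ⟨hx.trans_le hw.1, hw.2.trans_lt hz⟩
  have hne : (Icc x z).Nonempty := nonempty_Icc.2 (hxy.trans hyz).le
  obtain ⟨w, hw, hmax⟩ := isCompact_Icc.exists_isMaxOn hne (hf.mono hsub)
  -- an interior maximum point
  obtain ⟨w', hw', hmax'⟩ : ∃ w' ∈ Ioo x z, ∀ v ∈ Icc x z, f v ≤ f w' := by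
    have hyI : y ∈ Icc x z := ⟨hxy.le, hyz.le⟩
    by_cases h1 : w = x
    · refine ⟨y, ⟨hxy, hyz⟩, fun v hv => (hmax hv).trans ?_⟩
      rw [h1]
      exact (le_max_left _ _).trans hcon
    · by_cases h2 : w = z
      · refine ⟨y, ⟨hxy, hyz⟩, fun v hv => (hmax hv).trans ?_⟩
        rw [h2]
        exact (le_max_right _ _).trans hcon
      · exact ⟨w, ⟨lt_of_le_of_ne hw.1 (Ne.symm h1), lt_of_le_of_ne hw.2 h2⟩, fun v hv => hmax hv⟩
  obtain ⟨δ, hδ, hloc⟩ := hl w' (hsub (Ioo_subset_Icc_self hw'))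
  have h1 : max (w' - δ) x < w' := max_lt (by linarith) hw'.1
  have h2 : w' < min (w' + δ) z := lt_min (by linarith) hw'.2
  obtain ⟨u, hu⟩ := exists_between h1
  obtain ⟨v, hv⟩ := exists_between h2
  have hu1 : w' - δ < u := (le_max_left _ _).trans_lt hu.1
  have hu2 : x < u := (le_max_right _ _).trans_lt hu.1
  have hv1 : v < w' + δ := hv.2.trans_le (min_le_left _ _)
  have hv2 : v < z := hv.2.trans_le (min_le_right _ _)
  have h3 := hloc u ⟨hu1, hu.2⟩ v ⟨hv.1, hv1⟩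
  have h4 := hmax' u ⟨hu2.le, (hu.2.trans hw'.2).le⟩
  have h5 := hmax' v ⟨(hw'.1.trans hv.1).le, hv2.le⟩
  exact absurd h3 (not_lt.2 (max_le h4 h5))

theorem one_turn {f : ℝ → ℝ} {p q : ℝ} (hf : ContinuousOn f (Ioo p q))
    (hl : ∀ a ∈ Ioo p q, ∃ δ > 0, ∀ x ∈ Ioo (a - δ) a, ∀ z ∈ Ioo a (a + δ), f a < max (f x) (f z))
    (hv : ∃ x a b z, p < x ∧ x < a ∧ a < b ∧ b < z ∧ z < q ∧ f a < f x ∧ f b < f z) :
    ∃ t ∈ Ioo p q, (∀ y ∈ Ioo p q, ∀ z ∈ Ioo p q, y < z → z ≤ t → f z < f y) ∧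
      (∀ y ∈ Ioo p q, ∀ z ∈ Ioo p q, y < z → t ≤ y → f y < f z) := by
  obtain ⟨x0, a, b, z0, hpx, hxa, hab, hbz, hzq, hfa, hfb⟩ := hv
  have hsub : Icc x0 z0 ⊆ Ioo p q := fun w hw => ⟨hpx.trans_le hw.1, hw.2.trans_lt hzq⟩
  have hne : (Icc x0 z0).Nonempty := nonempty_Icc.2 (hxa.trans (hab.trans hbz)).le
  obtain ⟨t, ht, hmin⟩ := isCompact_Icc.exists_isMinOn hne (hf.mono hsub)
  have haI : a ∈ Icc x0 z0 := ⟨hxa.le, (hab.trans hbz).le⟩
  have hbI : b ∈ Icc x0 z0 := ⟨(hxa.trans hab).le, hbz.le⟩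
  have hta : f t ≤ f a := hmin haI
  have htb : f t ≤ f b := hmin hbI
  have htI : t ∈ Ioo p q := hsub ht
  have hglob : ∀ y ∈ Ioo p q, f t ≤ f y := by
    intro y hy
    rcases lt_or_ge y x0 with h1 | h1
    · have := quasi hf hl hy.1 h1 hxa (hab.trans (hbz.trans hzq))
      rcases lt_max_iff.1 this with h2 | h2
      · linarith
      · linarith
    · rcases lt_or_ge z0 y with h2 | h2
      · have := quasi hf hl (hpx.trans (hxa.trans hab)) hbz h2 hy.2
        rcases lt_max_iff.1 this with h3 | h3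
        · linarith
        · linarith
      · exact hmin ⟨h1, h2⟩
  have hstrict : ∀ y ∈ Ioo p q, y ≠ t → f t < f y := by
    intro y hy hyt
    refine lt_of_le_of_ne (hglob y hy) ?_
    intro heq
    rcases lt_or_gt_of_ne hyt with h1 | h1
    · obtain ⟨w, hw⟩ := exists_between h1
      have h2 := quasi hf hl hy.1 hw.1 hw.2 htI.2
      rw [← heq, max_self] at h2
      exact absurd (hglob w ⟨hy.1.trans hw.1, hw.2.trans htI.2⟩) (not_le.2 h2)
    · obtain ⟨w, hw⟩ := exists_between h1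
      have h2 := quasi hf hl htI.1 hw.1 hw.2 hy.2
      rw [← heq, max_self] at h2
      exact absurd (hglob w ⟨htI.1.trans hw.1, hw.2.trans hy.2⟩) (not_le.2 h2)
  refine ⟨t, htI, ?_, ?_⟩
  · intro y hy z hz hyz hzt
    rcases eq_or_lt_of_le hzt with h1 | h1
    · rw [h1]
      exact hstrict y hy (by rw [← h1]; exact hyz.ne)
    · have h2 := quasi hf hl hy.1 hyz h1 htI.2
      rcases lt_max_iff.1 h2 with h3 | h3
      · exact h3
      · exact absurd (hglob z hz) (not_le.2 h3)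
  · intro y hy z hz hyz hty
    rcases eq_or_lt_of_le hty with h1 | h1
    · rw [← h1]
      exact hstrict z hz (by rw [h1]; exact hyz.ne')
    · have h2 := quasi hf hl htI.1 h1 hyz hz.2
      rcases lt_max_iff.1 h2 with h3 | h3
      · exact absurd (hglob y hy) (not_le.2 h3)
      · exact h3

lemma continuous_V_param (t : ℝ) (ht : 0 ≤ t) : Continuous (fun a => V 1 a t) := by
  rw [Metric.continuous_iff]
  intro b ε hε
  set E := Real.exp (480 * t) with hE
  have hEpos : 0 < E := Real.exp_pos _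
  refine ⟨ε / E, div_pos hε hEpos, fun a ha => ?_⟩
  rw [Real.dist_eq] at ha ⊢
  have h1 := V_lip (a := a) (a' := b) one_mem (N := t) ⟨ht, le_rfl⟩
  rw [lt_div_iff₀ hEpos] at ha
  exact h1.trans_lt ha

lemma continuousOn_T {s : Set ℝ} (hs : IsOpen s) (h : ∀ a ∈ s, 0 < a ∧ Crosses a) :
    ContinuousOn T s := by
  intro a ha
  apply ContinuousAt.continuousWithinAt
  have ha0 := (h a ha).1
  have hc := (h a ha).2
  rw [ContinuousAt]
  rw [tendsto_order]
  constructor
  · intro c hcT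
    -- c < T a : eventually c < T a'
    rcases lt_or_ge c 0 with h0 | h0
    · filter_upwards [hs.mem_nhds ha] with b hb
      exact h0.trans (T_pos (h b hb).2)
    · have hV : 0 < V 1 a c := V_pos_of_lt ha0 hc h0 hcT
      have hev : ∀ᶠ b in 𝓝 a, 0 < V 1 b c :=
        (continuous_V_param c h0).continuousAt.eventually (lt_mem_nhds hV)
      filter_upwards [hev, hs.mem_nhds ha] with b hb hbs
      exact (lt_T_iff (h b hbs).1 (h b hbs).2 h0).2 hb
  · intro c hcT
    have h0 : 0 ≤ c := (T_pos hc).le.trans hcT.le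
    have hV : V 1 a c < 0 := V_neg_of_gt ha0 hc hcT
    have hev : ∀ᶠ b in 𝓝 a, V 1 b c < 0 :=
      (continuous_V_param c h0).continuousAt.eventually (gt_mem_nhds hV)
    filter_upwards [hev, hs.mem_nhds ha] with b hb hbs
    exact (T_lt_iff (h b hbs).1 (h b hbs).2 h0).2 hb

end LinNi.H55
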