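import Pool.Agent.Lib.MP_0170ef_an_helper55.Quasi

/-!
`V c a` is `C^2` on the whole line.
-/

set_option autoImplicit false

open Set Filter Topology

namespace LinNi.H55

variable {c : ℝ} (hc : c ∈ Icc (0:ℝ) 1) (a : ℝ)

include hc in
lemma tendsto_M_cube : Tendsto (fun t => M c a t / t ^ 3) (𝓝[≠] 0) (𝓝 (-(F c a) / 3)) := by
  have hff' : ∀ᶠ x in 𝓝[≠] (0:ℝ), HasDerivAt (M c a) (-(x ^ 2 * F c (V c a x))) x :=
    Eventually.of_forall fun x => hasDerivAt_M hc a x
  have hgg' : ∀ᶠ x in 𝓝[≠] (0:ℝ), HasDerivAt (fun t : ℝ => t ^ 3) (3 * x ^ 2) x :=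
    Eventually.of_forall fun x => by simpa using hasDerivAt_pow 3 x
  have hg' : ∀ᶠ x in 𝓝[≠] (0:ℝ), (3 * x ^ 2 : ℝ) ≠ 0 := by
    filter_upwards [self_mem_nhdsWithin] with x hx
    have hx' : x ≠ 0 := hx
    positivity
  have hfa : Tendsto (M c a) (𝓝[≠] 0) (𝓝 0) := by
    have := (hasDerivAt_M hc a 0).continuousAt.tendsto
    rw [M_zero hc a] at this
    exact this.mono_left nhdsWithin_le_nhds
  have hga : Tendsto (fun t : ℝ => t ^ 3) (𝓝[≠] 0) (𝓝 0) := by
    have : Continuous (fun t : ℝ => t ^ 3) := by fun_prop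
    have h2 := this.tendsto 0
    simp only [ne_eq, OfNat.ofNat_ne_zero, not_false_eq_true, zero_pow] at h2
    exact h2.mono_left nhdsWithin_le_nhds
  refine HasDerivAt.lhopital_zero_nhdsNE hff' hgg' hg' hfa hga ?_
  have h1 : Tendsto (fun x => -(F c (V c a x)) / 3) (𝓝[≠] 0) (𝓝 (-(F c a) / 3)) := by
    have : Continuous (fun x => -(F c (V c a x)) / 3) := by
      have h1 := continuous_F c
      have h2 := V_cont hc a
      fun_prop
    have h3 := this.tendsto 0
    rw [V_zero hc a] at h3
    exact h3.mono_left nhdsWithin_le_nhds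
  refine h1.congr' ?_
  filter_upwards [self_mem_nhdsWithin] with x hx
  have hx' : x ≠ 0 := hx
  field_simp

/-- first derivative of `V c a` -/
noncomputable def V1 (c a t : ℝ) : ℝ := M c a t / t ^ 2

/-- second derivative of `V c a` -/
noncomputable def V2 (c a t : ℝ) : ℝ :=
  if t = 0 then -(F c a) / 3 else -(F c (V c a t)) - 2 * (M c a t / t ^ 3)

include hc in
lemma hasDerivAt_V (t : ℝ) : HasDerivAt (V c a) (V1 c a t) t := by
  rcases eq_or_ne t 0 with rfl | ht
  · have h0 : V1 c a 0 = 0 := by simp [V1]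
    rw [h0]
    -- derivative at zero: limit of the derivative
    have hd : DifferentiableOn ℝ (V c a) ({0}ᶜ : Set ℝ) := fun x hx =>
      (solAt_VM hc a hx).1.differentiableAt.differentiableWithinAt
    have hlim : Tendsto (deriv (V c a)) (𝓝[≠] 0) (𝓝 0) := by
      have h1 : Tendsto (fun t => M c a t / t ^ 3 * t) (𝓝[≠] 0) (𝓝 (-(F c a) / 3 * 0)) :=
        (tendsto_M_cube hc a).mul (tendsto_id.mono_left nhdsWithin_le_nhds)
      rw [mul_zero] at h1
      refine h1.congr' ?_
      filter_upwards [self_mem_nhdsWithin] with x hx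
      have hx' : x ≠ 0 := hx
      rw [(solAt_VM hc a hx').1.deriv]
      field_simp
    have hL : HasDerivWithinAt (V c a) 0 (Iic 0) 0 := by
      refine hasDerivWithinAt_Iic_of_tendsto_deriv (s := Iio 0) ?_ ?_ ?_ ?_
      · exact fun x hx => (solAt_VM hc a (ne_of_lt hx)).1.differentiableAt.differentiableWithinAt
      · exact (V_cont hc a).continuousAt.continuousWithinAt
      · exact self_mem_nhdsWithin
      · exact hlim.mono_left (nhdsWithin_mono _ (fun x hx => ne_of_lt hx))
    have hR : HasDerivWithinAt (V c a) 0 (Ici 0) 0 := by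
      refine hasDerivWithinAt_Ici_of_tendsto_deriv (s := Ioi 0) ?_ ?_ ?_ ?_
      · exact fun x hx => (solAt_VM hc a (ne_of_gt hx)).1.differentiableAt.differentiableWithinAt
      · exact (V_cont hc a).continuousAt.continuousWithinAt
      · exact self_mem_nhdsWithin
      · exact hlim.mono_left (nhdsWithin_mono _ (fun x hx => ne_of_gt hx))
    have := hL.union hR
    rw [Iic_union_Ici] at this
    exact hasDerivWithinAt_univ.1 this
  · exact (solAt_VM hc a ht).1

include hc in
lemma tendsto_V1_slope : Tendsto (fun t => M c a t / t ^ 2 / t) (𝓝[≠] 0) (𝓝 (-(F c a) / 3)) := by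
  refine (tendsto_M_cube hc a).congr' ?_
  filter_upwards [self_mem_nhdsWithin] with x hx
  have hx' : x ≠ 0 := hx
  field_simp

include hc in
lemma hasDerivAt_V1 (t : ℝ) : HasDerivAt (V1 c a) (V2 c a t) t := by
  rcases eq_or_ne t 0 with rfl | ht
  · have h2 : V2 c a 0 = -(F c a) / 3 := by simp [V2]
    rw [h2, hasDerivAt_iff_tendsto_slope_zero]
    refine (tendsto_V1_slope hc a).congr' ?_
    filter_upwards [self_mem_nhdsWithin] with x hx
    have hx' : x ≠ 0 := hx
    simp only [zero_add, V1, smul_eq_mul]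
    simp
    field_simp
  · have h1 : HasDerivAt (V1 c a)
        ((-(t ^ 2 * F c (V c a t)) * t ^ 2 - M c a t * (2 * t)) / (t ^ 2) ^ 2) t := by
      have h2 : HasDerivAt (fun t : ℝ => t ^ 2) (2 * t) t := by simpa using hasDerivAt_pow 2 t
      exact (hasDerivAt_M hc a t).fun_div h2 (by positivity)
    refine h1.congr_deriv ?_
    simp only [V2, ht, if_false]
    field_simp

include hc in
lemma continuous_V2 : Continuous (V2 c a) := by
  rw [continuous_iff_continuousAt]
  intro t
  rcases eq_or_ne t 0 with rfl | ht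
  · rw [← continuousWithinAt_compl_self]
    unfold ContinuousWithinAt
    have h2 : V2 c a 0 = -(F c a) / 3 := by simp [V2]
    rw [h2]
    have h1 : Tendsto (fun t => -(F c (V c a t)) - 2 * (M c a t / t ^ 3)) (𝓝[≠] 0)
        (𝓝 (-(F c a) - 2 * (-(F c a) / 3))) := by
      refine Tendsto.sub ?_ ((tendsto_M_cube hc a).const_mul 2)
      have : Continuous (fun x => -(F c (V c a x))) := by
        have h1 := continuous_F c
        have h2 := V_cont hc a
        fun_prop
      have h3 := this.tendsto 0
      rw [V_zero hc a] at h3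
      exact h3.mono_left nhdsWithin_le_nhds
    have e : -(F c a) - 2 * (-(F c a) / 3) = -(F c a) / 3 := by ring
    rw [e] at h1
    refine h1.congr' ?_
    filter_upwards [self_mem_nhdsWithin] with x hx
    have hx' : x ≠ 0 := hx
    simp [V2, hx']
  · have h1 : ContinuousAt (fun t => -(F c (V c a t)) - 2 * (M c a t / t ^ 3)) t := by
      have e1 : ContinuousAt (fun t => F c (V c a t)) t := by
        have h1 := continuous_F c
        have h2 := V_cont hc a
        exact (h1.comp h2).continuousAt
      have e2 : ContinuousAt (M c a) t := (hasDerivAt_M hc a t).continuousAt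
      have e3 : ContinuousAt (fun t : ℝ => t ^ 3) t := by fun_prop
      exact e1.neg.sub (continuousAt_const.mul (e2.div e3 (by positivity)))
    refine h1.congr ?_
    filter_upwards [isOpen_ne.mem_nhds ht] with s hs
    simp [V2, show s ≠ 0 from hs]

include hc in
lemma contDiff_V : ContDiff ℝ 2 (V c a) := by
  have e1 : deriv (V c a) = V1 c a := funext fun t => (hasDerivAt_V hc a t).deriv
  have e2 : deriv (V1 c a) = V2 c a := funext fun t => (hasDerivAt_V1 hc a t).deriv
  have h1 : ContDiff ℝ 1 (V1 c a) := by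
    rw [contDiff_one_iff_deriv]
    refine ⟨fun t => (hasDerivAt_V1 hc a t).differentiableAt, ?_⟩
    rw [e2]
    exact continuous_V2 hc a
  have : (2 : WithTop ℕ∞) = 1 + 1 := by norm_num
  rw [this, contDiff_succ_iff_deriv]
  refine ⟨fun t => (hasDerivAt_V hc a t).differentiableAt, by simp, ?_⟩
  rw [e1]
  exact h1

end LinNi.H55
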